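import Pool.Agent.Helper34.FF.Goals1

/-!
# M5: an isometric boundary has no inner shortcuts
-/

namespace Pool.Agent.Helper7.FF

open Finset
open scoped symmDiff Classical
open Pool.Agent.Helper34.FF

theorem exists_walk_of_isW {V : Type} (G : SimpleGraph V) :
    ∀ (k : ℕ) (a : ℕ → V) (x y : V), IsW G k a x y → ∃ p : G.Walk x y, p.length = k := by
  intro k
  induction k with
  | zero =>
    intro a x y h
    obtain ⟨h0, h1, _⟩ := h
    have : x = y := by rw [← h0, ← h1]
    subst this
    exact ⟨SimpleGraph.Walk.nil, rfl⟩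
  | succ n ih =>
    intro a x y h
    obtain ⟨h0, h1, h2⟩ := h
    have h3 : IsW G n (fun i => a (i + 1)) (a 1) y := by
      refine ⟨rfl, h1, ?_⟩
      intro i hi
      exact h2 (i + 1) (by omega)
    obtain ⟨p, hp⟩ := ih _ _ _ h3
    have h4 : G.Adj x (a 1) := by
      rw [← h0]
      exact h2 0 (by omega)
    exact ⟨SimpleGraph.Walk.cons h4 p, by simp [hp]⟩

theorem dist_le_of_isW {V : Type} (G : SimpleGraph V) (k : ℕ) (a : ℕ → V) (x y : V)
    (h : IsW G k a x y) : G.dist x y ≤ k := by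
  obtain ⟨p, hp⟩ := exists_walk_of_isW G k a x y h
  rw [← hp]
  exact SimpleGraph.dist_le p

theorem per_mul {V : Type} (c : ℤ → V) (l : ℕ) (hper : ∀ i, c (i + l) = c i) (i n : ℤ) :
    c (i + n * l) = c i := by
  induction n using Int.induction_on with
  | zero => simp
  | succ n ih =>
    have : i + ((n : ℤ) + 1) * l = (i + n * l) + l := by ring
    rw [this, hper, ih]
  | pred n ih =>
    have h := hper (i + (-(n : ℤ) - 1) * l)
    have h2 : i + (-(n : ℤ) - 1) * l + l = i + (-(n : ℤ)) * l := by ring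
    rw [h2, ih] at h
    exact h.symm

theorem fwd {V F : Type} [Fintype V] [Fintype F] (T : Tri V F) (X : Finset F) (l : ℕ) (c : ℤ → V)
    (hE : T.Enum X l c) (i : ℤ) (k : ℕ) :
    IsW T.G k (fun t : ℕ => c (i + t)) (c i) (c (i + k)) ∧
      ∀ t < k, s((fun t : ℕ => c (i + t)) t, (fun t : ℕ => c (i + t)) (t + 1)) ∈ T.bdry X := by
  refine ⟨⟨by simp, rfl, ?_⟩, ?_⟩
  · intro t _
    have := hE.adj (i + t)
    simpa [add_assoc] using this
  · intro t _
    rw [hE.bd]
    exact ⟨i + t, by simp [add_assoc]⟩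

theorem bwd {V F : Type} [Fintype V] [Fintype F] (T : Tri V F) (X : Finset F) (l : ℕ) (c : ℤ → V)
    (hE : T.Enum X l c) (i : ℤ) (k : ℕ) :
    IsW T.G k (fun t : ℕ => c (i - t)) (c i) (c (i - k)) ∧
      ∀ t < k, s((fun t : ℕ => c (i - t)) t, (fun t : ℕ => c (i - t)) (t + 1)) ∈ T.bdry X := by
  have key : ∀ t : ℕ, (i - (t : ℤ)) = (i - ((t + 1 : ℕ) : ℤ)) + 1 := by
    intro t
    push_cast
    ring
  refine ⟨⟨by simp, rfl, ?_⟩, ?_⟩
  · intro t _
    have := hE.adj (i - ((t + 1 : ℕ) : ℤ))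
    rw [← key t] at this
    exact this.symm
  · intro t _
    rw [hE.bd]
    refine ⟨i - ((t + 1 : ℕ) : ℤ), ?_⟩
    rw [← key t]
    exact Sym2.eq_swap

/-- the distance formula, integer positions -/
theorem dist_int {V F : Type} [Fintype V] [Fintype F] (T : Tri V F) (X : Finset F) (l : ℕ)
    (c : ℤ → V) (hI : T.Iso X l c) (i j : ℤ) (hij : i ≤ j) (hjl : j ≤ i + l) :
    (T.G.dist (c i) (c j) : ℤ) = min (j - i) (l - (j - i)) := by
  obtain ⟨hE, hd⟩ := hI
  have hl : (0 : ℤ) < l := by
    have := hE.three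
    omega
  -- shift by a multiple of `l`
  have hn : 0 ≤ i + (i.natAbs : ℤ) * l := by
    have h1 : (i.natAbs : ℤ) * 1 ≤ (i.natAbs : ℤ) * l := by
      apply mul_le_mul_of_nonneg_left _ (by omega)
      omega
    omega
  have h1 := per_mul c l hE.per i (i.natAbs : ℤ)
  have h2 := per_mul c l hE.per j (i.natAbs : ℤ)
  obtain ⟨u, hu⟩ := Int.eq_ofNat_of_zero_le hn
  have hn2 : 0 ≤ j + (i.natAbs : ℤ) * l := by omega
  obtain ⟨v, hv⟩ := Int.eq_ofNat_of_zero_le hn2
  rw [hu] at h1
  rw [hv] at h2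
  have h3 := hd u v (by omega) (by omega)
  rw [h1, h2] at h3
  rw [h3]
  omega

theorem in_of_iso {V F : Type} [Fintype V] [Fintype F] (T : Tri V F)
    (h2 : StmtEnumFacts) (hS : T.Sphere) (X : Finset F) (l : ℕ) (c : ℤ → V)
    (hI : T.Iso X l c) : T.IN X := by
  have hd := dist_int T X l c hI
  obtain ⟨hE, _⟩ := hI
  intro k a x y hx hy hw _
  obtain ⟨_, _, _, hV, _⟩ := h2 V F T hS X l c hE
  obtain ⟨i, rfl⟩ := (hV x).1 hx
  obtain ⟨j, rfl⟩ := (hV y).1 hy
  have hl : (0 : ℤ) < l := by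
    have := hE.three
    omega
  set j' : ℤ := i + (j - i) % l with hj'
  have hmod0 : 0 ≤ (j - i) % (l : ℤ) := Int.emod_nonneg _ (by omega)
  have hmod1 : (j - i) % (l : ℤ) < l := Int.emod_lt_of_pos _ hl
  have hcj : c j = c j' := by
    have h := per_mul c l hE.per j' ((j - i) / l)
    have h3 : j' + (j - i) / l * l = j := by
      have := Int.emod_add_mul_ediv (j - i) l
      rw [hj']
      have h4 : (j - i) / l * l = (l : ℤ) * ((j - i) / l) := by ring
      rw [h4]
      omega
    rw [h3] at h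
    exact h
  rw [hcj] at hw ⊢
  have h5 := hd i j' (by omega) (by omega)
  have h6 := dist_le_of_isW T.G k a _ _ hw
  have h7 : min (j' - i) (l - (j' - i)) ≤ (k : ℤ) := by
    rw [← h5]
    exact_mod_cast h6
  rcases min_le_iff.mp h7 with h8 | h8
  · refine ⟨(j' - i).toNat, by omega, fun t : ℕ => c (i + t), ?_⟩
    have h9 := fwd T X l c hE i (j' - i).toNat
    have h10 : i + ((j' - i).toNat : ℤ) = j' := by
      rw [Int.toNat_of_nonneg (by omega)]
      ring
    rw [h10] at h9
    exact h9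
  · refine ⟨(l - (j' - i)).toNat, by omega, fun t : ℕ => c (i - t), ?_⟩
    have h9 := bwd T X l c hE i (l - (j' - i)).toNat
    have h10 : c (i - ((l - (j' - i)).toNat : ℤ)) = c j' := by
      rw [Int.toNat_of_nonneg (by omega)]
      have h11 := hE.per (i - (l - (j' - i)))
      have h12 : i - ((l : ℤ) - (j' - i)) + l = j' := by ring
      rw [h12] at h11
      exact h11.symm
    rw [h10] at h9
    exact h9

theorem pf_StmtIso (h1 : StmtAlg) (h2 : StmtEnumFacts) : StmtIso := by
  intro V F _ _ T hS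
  constructor
  · intro X l c hI
    have hcomp : T.Iso Xᶜ l c := by
      refine ⟨?_, hI.2⟩
      exact (h2 V F T hS X l c hI.1).2.2.2.2.2.2.2.1
    refine ⟨in_of_iso T h2 hS X l c hI, in_of_iso T h2 hS Xᶜ l c hcomp, hcomp, ?_⟩
    intro i j k a hij hjl hw
    have h3 := dist_le_of_isW T.G k a _ _ hw
    have h4 := dist_int T X l c hI i j (by omega) (by omega)
    omega
  · intro X l c hE hb
    refine ⟨hE, ?_⟩
    intro i j hij hjl
    apply le_antisymm
    · have hA : T.G.dist (c i) (c j) ≤ j - i := by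
        have h := (fwd T X l c hE i (j - i)).1
        have h10 : (i : ℤ) + ((j - i : ℕ) : ℤ) = j := by
          omega
        rw [h10] at h
        exact dist_le_of_isW T.G _ _ _ _ h
      have hB : T.G.dist (c i) (c j) ≤ l - (j - i) := by
        have h := (bwd T X l c hE i (l - (j - i))).1
        have h10 : c ((i : ℤ) - ((l - (j - i) : ℕ) : ℤ)) = c j := by
          have h11 := hE.per (i - ((l - (j - i) : ℕ) : ℤ))
          have h12 : (i : ℤ) - ((l - (j - i) : ℕ) : ℤ) + l = j := by omega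
          rw [h12] at h11
          exact h11.symm
        rw [h10] at h
        exact dist_le_of_isW T.G _ _ _ _ h
      omega
    · obtain ⟨p, hp⟩ := hS.conn.exists_walk_length_eq_dist (c i) (c j)
      rw [← hp]
      apply hb i j p.length p.getVert hij hjl
      refine ⟨p.getVert_zero, p.getVert_length, ?_⟩
      intro t ht
      exact p.adj_getVert_succ ht

end Pool.Agent.Helper7.FF
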